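import Mathlib

/-!
# The second order theta constants and the group `Γ_g(2,4)`

Definitions for MP_2bf81a_ag.
-/

set_option autoImplicit false

namespace Pool.Agent.V7H1.ThetaMap

open Complex Matrix

/-- The complex vector space of symmetric complex `g × g` matrices, as a subspace of the space of
all functions `Fin g → Fin g → ℂ`. -/
def symSub (g : ℕ) : Submodule ℂ (Fin g → Fin g → ℂ) where
  carrier := {τ | ∀ i j, τ i j = τ j i}
  add_mem' := fun {a b} ha hb i j => by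
    change a i j + b i j = a j i + b j i
    rw [ha i j, hb i j]
  zero_mem' := fun _ _ => rfl
  smul_mem' := fun c a ha i j => by
    change c • a i j = c • a j i
    rw [ha i j]

/-- The type of symmetric complex `g × g` matrices. -/
def SymMat (g : ℕ) : Type := symSub g

/-- The norm of symmetric matrices is the maximum of the absolute values of the entries. -/
noncomputable instance instNorm (g : ℕ) : NormedAddCommGroup (SymMat g) :=
  Submodule.normedAddCommGroup (symSub g)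

/-- The structure of a complex vector space. -/
noncomputable instance instSpace (g : ℕ) : NormedSpace ℂ (SymMat g) :=
  Submodule.normedSpace (symSub g)

/-- The underlying matrix. -/
def mat {g : ℕ} (τ : SymMat g) : Matrix (Fin g) (Fin g) ℂ := Matrix.of τ.1

/-- The Siegel upper half-space: the symmetric matrices with positive definite imaginary part. -/
def siegel (g : ℕ) : Set (SymMat g) := {τ | ((mat τ).map Complex.im).PosDef}

/-- The theta function with characteristics `ε`, `δ`: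
`∑ exp (π i (n + ε)ᵗ (τ (n + ε) + 2 (z + δ)))`, the sum being over `n ∈ ℤ^g`. -/
noncomputable def theta {g : ℕ} (ε δ : Fin g → ℂ) (τ : Matrix (Fin g) (Fin g) ℂ) (z : Fin g → ℂ) :
    ℂ :=
  ∑' n : Fin g → ℤ, cexp (Real.pi * I *
    ∑ i, ((n i : ℂ) + ε i) * (∑ j, τ i j * ((n j : ℂ) + ε j) + 2 * (z i + δ i)))

/-- The second order theta constants `Θ[ε](τ) = θ[ε, 0](2τ, 0)`. The index `ε : Fin g → Fin 2`
stands for the characteristic `ε / 2`. -/
noncomputable def thetaConst {g : ℕ} (τ : SymMat g) : (Fin g → Fin 2) → ℂ :=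
  fun ε => theta (fun i => ((ε i : ℕ) : ℂ) / 2) 0 ((2 : ℂ) • mat τ) 0

/-- The congruence `γ ≡ 1` modulo `2`. -/
def CongrOne {g : ℕ} (γ : Matrix (Fin g ⊕ Fin g) (Fin g ⊕ Fin g) ℤ) : Prop :=
  ∀ i j, (2 : ℤ) ∣ γ i j - (1 : Matrix (Fin g ⊕ Fin g) (Fin g ⊕ Fin g) ℤ) i j

/-- The group `Γ_g(2,4)`: the matrices `γ = (a b; c d)` in `Sp(2g, ℤ)` with `γ ≡ 1` modulo `2` such
that the diagonal entries of `a bᵗ` and `c dᵗ` are divisible by `4`. -/
def Gamma24 (g : ℕ) : Set (Matrix (Fin g ⊕ Fin g) (Fin g ⊕ Fin g) ℤ) :=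
  {γ | γ ∈ Matrix.symplecticGroup (Fin g) ℤ ∧ CongrOne γ ∧
    (∀ i, (4 : ℤ) ∣ (γ.toBlocks₁₁ * γ.toBlocks₁₂ᵀ) i i) ∧
    (∀ i, (4 : ℤ) ∣ (γ.toBlocks₂₁ * γ.toBlocks₂₂ᵀ) i i)}

/-- The matrix `a τ + b` for integral matrices `a`, `b`. -/
def affine {g : ℕ} (a b : Matrix (Fin g) (Fin g) ℤ) (τ : SymMat g) : Matrix (Fin g) (Fin g) ℂ :=
  a.map (Int.cast : ℤ → ℂ) * mat τ + b.map (Int.cast : ℤ → ℂ)

/-- `τ` and `τ'` are in the same orbit of `Γ_g(2,4)`: `τ' = (a τ + b) (c τ + d)⁻¹` for some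
`γ = (a b; c d)` in `Γ_g(2,4)`. -/
def SameOrbit {g : ℕ} (τ τ' : SymMat g) : Prop :=
  ∃ γ ∈ Gamma24 g, mat τ' =
    affine γ.toBlocks₁₁ γ.toBlocks₁₂ τ * (affine γ.toBlocks₂₁ γ.toBlocks₂₂ τ)⁻¹

/-- `f` is a holomorphic function on the open subset `U` of the Siegel upper half-space with the same
values at points of `U` in the same orbit of `Γ_g(2,4)`, that is, a holomorphic function on the image
of `U` in `A_g(2,4)`. -/
def QuotientFunction {g : ℕ} (U : Set (SymMat g)) (f : SymMat g → ℂ) : Prop :=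
  IsOpen U ∧ U ⊆ siegel g ∧ AnalyticOnNhd ℂ f U ∧ ∀ τ ∈ U, ∀ τ' ∈ U, SameOrbit τ τ' → f τ = f τ'

/-- Near `τ₀`, the function `f` is of the form `F (Θ (τ))` for a function `F` of `2 ^ g` variables
which is holomorphic near `Θ (τ₀)`. -/
def PulledBack {g : ℕ} (τ₀ : SymMat g) (f : SymMat g → ℂ) : Prop :=
  ∃ F : ((Fin g → Fin 2) → ℂ) → ℂ, AnalyticAt ℂ F (thetaConst τ₀) ∧
    ∀ᶠ τ in nhds τ₀, f τ = F (thetaConst τ)

end Pool.Agent.V7H1.ThetaMap
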