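import Pool.Agent.V7H1.ThetaMap.Orbit

set_option autoImplicit false

namespace Pool.Agent.V7H1.ThetaMap

open Complex Filter Topology Matrix

variable {g : ℕ}

/-- the coordinate functions -/
noncomputable def coord (i j : Fin g) : SymMat g →L[ℂ] ℂ :=
  (ContinuousLinearMap.proj (R := ℂ) (φ := fun _ : Fin g => ℂ) j).comp
    ((ContinuousLinearMap.proj (R := ℂ) (φ := fun _ : Fin g => Fin g → ℂ) i).comp
      (symSub g).subtypeL)

theorem coord_apply (i j : Fin g) (τ : SymMat g) : coord i j τ = τ.1 i j := rfl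

/-- the difference of two four cycles -/
noncomputable def fcn (q : Fin 4 → Fin g) (τ : SymMat g) : ℂ :=
  τ.1 (q 0) (q 1) * τ.1 (q 2) (q 3) *
    (τ.1 (q 0) (q 3) * τ.1 (q 1) (q 2) - τ.1 (q 0) (q 2) * τ.1 (q 1) (q 3))

theorem analytic_fcn (q : Fin 4 → Fin g) (U : Set (SymMat g)) : AnalyticOnNhd ℂ (fcn q) U := by
  intro τ _
  have h : ∀ i j, AnalyticAt ℂ (fun τ : SymMat g => τ.1 i j) τ := fun i j =>
    (coord i j).analyticAt τ
  exact ((h _ _).mul (h _ _)).mul (((h _ _).mul (h _ _)).sub ((h _ _).mul (h _ _)))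

theorem fcn_path (q : Fin 4 → Fin g) (hq : Function.Injective q) (σ s : ℝ) :
    fcn q (path q σ s) = σ * (s : ℂ) ^ 4 := by
  unfold fcn
  simp only [path_apply, edge_apply, hq.eq_iff]
  simp
  ring

theorem fcn_path' (q : Fin 4 → Fin g) (hq : Function.Injective q) (σ s : ℝ) :
    fcn q (path (q ∘ Equiv.swap 2 3) σ s) = - (σ * (s : ℂ) ^ 4) := by
  have h0 : (Equiv.swap (2 : Fin 4) 3) 0 = 0 := by decide
  have h1 : (Equiv.swap (2 : Fin 4) 3) 1 = 1 := by decide
  have h2 : (Equiv.swap (2 : Fin 4) 3) 2 = 3 := by decide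
  have h3 : (Equiv.swap (2 : Fin 4) 3) 3 = 2 := by decide
  unfold fcn
  simp only [path_apply, edge_apply, Function.comp, h0, h1, h2, h3, hq.eq_iff]
  simp
  ring

theorem fcn_invariant (hg : 0 < g) (q : Fin 4 → Fin g) {τ τ' : SymMat g}
    (h : Near (1 / (8 * (g : ℝ))) τ) (h' : Near (1 / (8 * (g : ℝ))) τ') (hO : SameOrbit τ τ') :
    fcn q τ' = fcn q τ := by
  obtain ⟨D, hD, hτ⟩ := near_orbit hg h h' hO
  have h1 : ∀ i, D i * D i = 1 := by
    intro i
    rcases hD i with h4 | h4 <;> rw [h4] <;> norm_num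
  unfold fcn
  rw [hτ, hτ, hτ, hτ, hτ, hτ]
  have h2 : (D (q 0) * D (q 0)) * (D (q 1) * D (q 1)) * (D (q 2) * D (q 2)) *
      (D (q 3) * D (q 3)) = 1 := by
    rw [h1, h1, h1, h1]
    norm_num
  linear_combination (τ.1 (q 0) (q 1) * τ.1 (q 2) (q 3) *
    (τ.1 (q 0) (q 3) * τ.1 (q 1) (q 2) - τ.1 (q 0) (q 2) * τ.1 (q 1) (q 3))) * h2

/-- A neighbourhood of `i 1_g` lies in the Siegel upper half-space. -/
theorem near_subset_siegel (hg : 0 < g) : {τ : SymMat g | Near (1 / (8 * (g : ℝ))) τ} ⊆ siegel g := by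
  intro τ hτ
  have hg' : (1 : ℝ) ≤ g := by exact_mod_cast hg
  have hr : (g : ℝ) * (1 / (8 * (g : ℝ))) = 1 / 8 := by field_simp
  have h6 : ∀ k l, |(τ.1 k l).im - (if k = l then 1 else 0)| ≤ 1 / (8 * (g : ℝ)) := by
    intro k l
    have h7 := hτ k l
    have h8 : ((τ.1 k l).im - (if k = l then 1 else 0)) = (τ.1 k l - (base g).1 k l).im := by
      rw [base_apply]
      split_ifs <;> simp
    rw [h8]
    exact (Complex.abs_im_le_norm _).trans h7.le
  change (Matrix.of fun i j => (τ.1 i j).im).PosDef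
  refine Matrix.PosDef.of_dotProduct_mulVec_pos ?_ ?_
  · ext i j
    simp only [conjTranspose_apply, Matrix.of_apply, star_trivial]
    rw [τ.2 j i]
  · intro x hx
    have h1 : star x ⬝ᵥ (Matrix.of fun i j => (τ.1 i j).im) *ᵥ x =
        ∑ k, x k ^ 2 + ∑ k, x k * ∑ l, ((τ.1 k l).im - (if k = l then 1 else 0)) * x l := by
      simp only [star_trivial, dotProduct, mulVec, Matrix.of_apply]
      rw [← Finset.sum_add_distrib]
      refine Finset.sum_congr rfl fun k _ => ?_
      simp only [sub_mul, Finset.sum_sub_distrib]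
      simp
      ring
    rw [h1]
    have h2 : |∑ k, x k * ∑ l, ((τ.1 k l).im - (if k = l then 1 else 0)) * x l| ≤
        1 / (8 * (g : ℝ)) * (∑ k, |x k|) ^ 2 := by
      refine (Finset.abs_sum_le_sum_abs _ _).trans ?_
      have h3 : ∀ k ∈ (Finset.univ : Finset (Fin g)),
          |x k * ∑ l, ((τ.1 k l).im - (if k = l then 1 else 0)) * x l| ≤
          |x k| * (1 / (8 * (g : ℝ)) * ∑ l, |x l|) := by
        intro k _
        rw [abs_mul]
        refine mul_le_mul_of_nonneg_left ?_ (abs_nonneg _)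
        refine (Finset.abs_sum_le_sum_abs _ _).trans ?_
        rw [Finset.mul_sum]
        refine Finset.sum_le_sum fun l _ => ?_
        rw [abs_mul]
        exact mul_le_mul_of_nonneg_right (h6 k l) (abs_nonneg _)
      refine (Finset.sum_le_sum h3).trans (le_of_eq ?_)
      rw [← Finset.sum_mul]
      ring
    have h3 : (∑ k, |x k|) ^ 2 ≤ g * ∑ k, x k ^ 2 := by
      have := sq_sum_le_card_mul_sum_sq (s := (Finset.univ : Finset (Fin g))) (f := fun k => |x k|)
      simpa using this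
    have h4 : 0 < ∑ k, x k ^ 2 := by
      obtain ⟨k, hk⟩ := Function.ne_iff.1 hx
      exact Finset.sum_pos' (fun _ _ => sq_nonneg _) ⟨k, Finset.mem_univ _, by
        have : x k ≠ 0 := hk
        positivity⟩
    have h5 : 1 / (8 * (g : ℝ)) * (∑ k, |x k|) ^ 2 ≤ 1 / 8 * ∑ k, x k ^ 2 := by
      calc _ ≤ 1 / (8 * (g : ℝ)) * (g * ∑ k, x k ^ 2) := by gcongr
        _ = _ := by rw [← hr]; ring
    have h7 := abs_le.1 (h2.trans h5)
    linarith [h7.1]

theorem main (hg : 4 ≤ g) (F : ((Fin g → Fin 2) → ℂ) → ℂ)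
    (hF : AnalyticAt ℂ F (thetaConst (base g))) :
    ¬ ∀ᶠ τ in 𝓝 (base g), fcn (Fin.castLE hg) τ = F (thetaConst τ) := by
  intro h
  have hq : Function.Injective (Fin.castLE hg) := Fin.castLE_injective hg
  have hF' := hF.hasStrictFDerivAt
  have hpath : ∀ (p : Fin 4 → Fin g) (σ : ℝ), ∀ᶠ s : ℝ in 𝓝[≠] 0,
      fcn (Fin.castLE hg) (path p σ s) = F (thetaConst (path p σ s)) := by
    intro p σ
    have h1 : Tendsto (fun s => path p σ s) (𝓝 0) (𝓝 (base g)) := by
      have h2 := (continuous_path p σ).tendsto 0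
      rwa [path_zero] at h2
    exact (h1.eventually h).filter_mono nhdsWithin_le_nhds
  have h1 : fderiv ℂ F (thetaConst (base g)) (kap (Fin.castLE hg)) = 2 := by
    refine deriv_kap _ hq F _ hF' 2 ?_
    filter_upwards [hpath (Fin.castLE hg) 1, hpath (Fin.castLE hg) (-1)] with s h2 h3
    rw [← h2, ← h3, fcn_path _ hq, fcn_path _ hq]
    push_cast
    ring
  have h2 : fderiv ℂ F (thetaConst (base g)) (kap (Fin.castLE hg ∘ Equiv.swap 2 3)) = -2 := by
    refine deriv_kap _ (hq.comp (Equiv.injective _)) F _ hF' (-2) ?_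
    filter_upwards [hpath (Fin.castLE hg ∘ Equiv.swap 2 3) 1,
      hpath (Fin.castLE hg ∘ Equiv.swap 2 3) (-1)] with s h2 h3
    rw [← h2, ← h3, fcn_path' _ hq, fcn_path' _ hq]
    push_cast
    ring
  rw [kap_perm, h1] at h2
  norm_num at h2

theorem near_base (hg : 0 < g) : Near (1 / (8 * (g : ℝ))) (base g) := by
  intro i j
  rw [sub_self, norm_zero]
  have hg' : (1 : ℝ) ≤ g := by exact_mod_cast hg
  positivity

end Pool.Agent.V7H1.ThetaMap
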