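import Pool.Agent.V7H1.ThetaMap.Path

set_option autoImplicit false

namespace Pool.Agent.V7H1.ThetaMap

open Complex Filter Topology Matrix

variable {g : ℕ}

/-- The block relations of a symplectic matrix. -/
theorem symplectic_rel (γ : Matrix (Fin g ⊕ Fin g) (Fin g ⊕ Fin g) ℤ)
    (h : γ ∈ Matrix.symplecticGroup (Fin g) ℤ) :
    γ.toBlocks₂₁ᵀ * γ.toBlocks₁₁ = γ.toBlocks₁₁ᵀ * γ.toBlocks₂₁ ∧
    γ.toBlocks₁₁ᵀ * γ.toBlocks₂₂ - γ.toBlocks₂₁ᵀ * γ.toBlocks₁₂ = 1 ∧
    γ.toBlocks₂₂ᵀ * γ.toBlocks₁₁ - γ.toBlocks₁₂ᵀ * γ.toBlocks₂₁ = 1 ∧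
    γ.toBlocks₂₂ᵀ * γ.toBlocks₁₂ = γ.toBlocks₁₂ᵀ * γ.toBlocks₂₂ := by
  rw [SymplecticGroup.mem_iff'] at h
  rw [← fromBlocks_toBlocks γ] at h
  rw [fromBlocks_transpose, Matrix.J, fromBlocks_multiply, fromBlocks_multiply] at h
  rw [fromBlocks_inj] at h
  obtain ⟨h1, h2, h3, h4⟩ := h
  simp only [Matrix.mul_zero, Matrix.mul_one, zero_add, Matrix.mul_neg, Matrix.neg_mul,
    add_zero] at h1 h2 h3 h4
  generalize γ.toBlocks₁₁ = a at *
  generalize γ.toBlocks₁₂ = b at *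
  generalize γ.toBlocks₂₁ = c at *
  generalize γ.toBlocks₂₂ = d at *
  refine ⟨?_, ?_, ?_, ?_⟩
  · rw [← sub_eq_zero, sub_eq_add_neg]; exact h1
  · rw [← neg_inj, ← h2]; abel
  · rw [← h3]; abel
  · rw [← sub_eq_zero, sub_eq_add_neg]; exact h4

/-- integer matrices as complex matrices -/
noncomputable abbrev cm (a : Matrix (Fin g) (Fin g) ℤ) : Matrix (Fin g) (Fin g) ℂ :=
  a.map (Int.cast : ℤ → ℂ)

theorem cm_mul (a b : Matrix (Fin g) (Fin g) ℤ) : cm (a * b) = cm a * cm b :=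
  Matrix.map_mul (f := Int.castRingHom ℂ)

theorem cm_transpose (a : Matrix (Fin g) (Fin g) ℤ) : cm aᵀ = (cm a)ᵀ := rfl

theorem cm_conjTranspose (a : Matrix (Fin g) (Fin g) ℤ) : (cm a)ᴴ = (cm a)ᵀ := by
  ext i j
  simp [conjTranspose_apply]

theorem cm_sub (a b : Matrix (Fin g) (Fin g) ℤ) : cm (a - b) = cm a - cm b := by
  ext i j
  simp

theorem cm_one : cm (1 : Matrix (Fin g) (Fin g) ℤ) = 1 := by
  ext i j
  by_cases h : i = j <;> simp [Matrix.one_apply, h]

/-- The relation between the imaginary parts. -/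
theorem imag_rel {a b c d : Matrix (Fin g) (Fin g) ℤ} (h1 : cᵀ * a = aᵀ * c)
    (h2 : aᵀ * d - cᵀ * b = 1) (h3 : dᵀ * a - bᵀ * c = 1) (h4 : dᵀ * b = bᵀ * d)
    (T T' : Matrix (Fin g) (Fin g) ℂ) (h : T' * (cm c * T + cm d) = cm a * T + cm b) :
    (cm c * T + cm d)ᴴ * (T' - T'ᴴ) * (cm c * T + cm d) = T - Tᴴ := by
  have k1 : (cm c)ᵀ * cm a = (cm a)ᵀ * cm c := by
    rw [← cm_transpose, ← cm_transpose, ← cm_mul, ← cm_mul, h1]
  have k2 : (cm a)ᵀ * cm d - (cm c)ᵀ * cm b = 1 := by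
    rw [← cm_transpose, ← cm_transpose, ← cm_mul, ← cm_mul, ← cm_sub, h2, cm_one]
  have k3 : (cm d)ᵀ * cm a - (cm b)ᵀ * cm c = 1 := by
    rw [← cm_transpose, ← cm_transpose, ← cm_mul, ← cm_mul, ← cm_sub, h3, cm_one]
  have k4 : (cm d)ᵀ * cm b = (cm b)ᵀ * cm d := by
    rw [← cm_transpose, ← cm_transpose, ← cm_mul, ← cm_mul, h4]
  have e1 : (cm c * T + cm d)ᴴ * (T' - T'ᴴ) * (cm c * T + cm d) =
      (cm c * T + cm d)ᴴ * (cm a * T + cm b) - (cm a * T + cm b)ᴴ * (cm c * T + cm d) := by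
    rw [← h, conjTranspose_mul, mul_sub, sub_mul, Matrix.mul_assoc, Matrix.mul_assoc]
  rw [e1]
  simp only [conjTranspose_add, conjTranspose_mul, cm_conjTranspose]
  have e2 : (Tᴴ * (cm c)ᵀ + (cm d)ᵀ) * (cm a * T + cm b) -
      (Tᴴ * (cm a)ᵀ + (cm b)ᵀ) * (cm c * T + cm d) =
      Tᴴ * ((cm c)ᵀ * cm a - (cm a)ᵀ * cm c) * T - Tᴴ * ((cm a)ᵀ * cm d - (cm c)ᵀ * cm b) +
      ((cm d)ᵀ * cm a - (cm b)ᵀ * cm c) * T + ((cm d)ᵀ * cm b - (cm b)ᵀ * cm d) := by
    noncomm_ring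
  rw [e2, k2, k3, k1, k4]
  simp
  abel

/-- closeness to the base point -/
def Near (r : ℝ) (τ : SymMat g) : Prop := ∀ i j, ‖τ.1 i j - (base g).1 i j‖ < r

theorem isOpen_near (r : ℝ) : IsOpen {τ : SymMat g | Near r τ} := by
  have : {τ : SymMat g | Near r τ} = ⋂ i, ⋂ j, {τ : SymMat g | ‖τ.1 i j - (base g).1 i j‖ < r} := by
    ext τ
    simp [Near]
  rw [this]
  refine isOpen_iInter_of_finite fun i => isOpen_iInter_of_finite fun j => ?_
  refine isOpen_lt ?_ continuous_const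
  have h : Continuous fun τ : SymMat g => τ.1 i j :=
    (continuous_apply j).comp ((continuous_apply i).comp continuous_subtype_val)
  exact (h.sub continuous_const).norm


/-- A column of `M = c τ + d` is almost a unit vector. -/
theorem col_bound (hg : 0 < g) {τ τ' : SymMat g} (h : Near (1 / (8 * (g : ℝ))) τ)
    (h' : Near (1 / (8 * (g : ℝ))) τ') (M : Matrix (Fin g) (Fin g) ℂ)
    (hM : Mᴴ * (Matrix.of τ'.1 - (Matrix.of τ'.1)ᴴ) * M = Matrix.of τ.1 - (Matrix.of τ.1)ᴴ)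
    (j : Fin g) : ∑ k, ‖M k j‖ ^ 2 ≤ 9 / 7 := by
  have hg' : (1 : ℝ) ≤ g := by exact_mod_cast hg
  have hr : (g : ℝ) * (1 / (8 * (g : ℝ))) = 1 / 8 := by field_simp
  have hr0 : 0 < 1 / (8 * (g : ℝ)) := by positivity
  have hr1 : 1 / (8 * (g : ℝ)) ≤ 1 / 8 := by
    rw [← hr]
    exact le_mul_of_one_le_left hr0.le hg'
  set r : ℝ := 1 / (8 * (g : ℝ)) with hrdef
  have h1 : ∀ (σ : SymMat g) (k l : Fin g), (Matrix.of σ.1 - (Matrix.of σ.1)ᴴ) k l =
      2 * I * ((σ.1 k l).im : ℂ) := by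
    intro σ k l
    rw [Matrix.sub_apply, conjTranspose_apply, Matrix.of_apply, Matrix.of_apply, σ.2 l k]
    apply Complex.ext <;> simp
    ring
  have h2 := congrFun (congrFun hM j) j
  rw [h1, Matrix.mul_apply] at h2
  simp only [Matrix.mul_apply, conjTranspose_apply, h1] at h2
  -- divide by `2 i`
  have h3 : ∑ l, (∑ k, star (M k j) * ((τ'.1 k l).im : ℂ)) * M l j = ((τ.1 j j).im : ℂ) := by
    have h4 : (2 * I) ≠ (0 : ℂ) := by simp
    apply mul_left_cancel₀ h4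
    rw [← h2, Finset.mul_sum]
    refine Finset.sum_congr rfl fun l _ => ?_
    rw [← mul_assoc, Finset.mul_sum]
    congr 1
    refine Finset.sum_congr rfl fun k _ => ?_
    ring
  -- split
  have h4 : ∑ l, (∑ k, star (M k j) * ((if k = l then 1 else 0 : ℝ) : ℂ)) * M l j =
      ((∑ k, ‖M k j‖ ^ 2 : ℝ) : ℂ) := by
    rw [Complex.ofReal_sum]
    refine Finset.sum_congr rfl fun l _ => ?_
    have : ∑ k, star (M k j) * ((if k = l then 1 else 0 : ℝ) : ℂ) = star (M l j) := by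
      rw [Finset.sum_eq_single l]
      · simp
      · intro k _ hk
        simp [hk]
      · simp
    rw [this, Complex.star_def, Complex.conj_mul']
    push_cast
    rfl
  have h5 : ((∑ k, ‖M k j‖ ^ 2 : ℝ) : ℂ) = ((τ.1 j j).im : ℂ) -
      ∑ l, (∑ k, star (M k j) * (((τ'.1 k l).im - (if k = l then 1 else 0) : ℝ) : ℂ)) * M l j := by
    rw [← h3, ← h4, ← Finset.sum_sub_distrib]
    refine Finset.sum_congr rfl fun l _ => ?_
    rw [← sub_mul, ← Finset.sum_sub_distrib]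
    congr 1
    refine Finset.sum_congr rfl fun k _ => ?_
    push_cast
    ring
  have h6 : ∀ (σ : SymMat g), Near r σ → ∀ k l, |(σ.1 k l).im - (if k = l then 1 else 0)| ≤ r := by
    intro σ hσ k l
    have h7 := hσ k l
    have h8 : ((σ.1 k l).im - (if k = l then 1 else 0)) = (σ.1 k l - (base g).1 k l).im := by
      rw [base_apply]
      split_ifs <;> simp
    rw [h8]
    exact (Complex.abs_im_le_norm _).trans h7.le
  have h7 : ‖∑ l, (∑ k, star (M k j) * (((τ'.1 k l).im - (if k = l then 1 else 0) : ℝ) : ℂ)) *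
      M l j‖ ≤ r * (∑ k, ‖M k j‖) ^ 2 := by
    refine (norm_sum_le _ _).trans ?_
    have h8 : ∀ l ∈ Finset.univ, ‖(∑ k, star (M k j) *
        (((τ'.1 k l).im - (if k = l then 1 else 0) : ℝ) : ℂ)) * M l j‖ ≤
        (r * ∑ k, ‖M k j‖) * ‖M l j‖ := by
      intro l _
      rw [norm_mul]
      refine mul_le_mul_of_nonneg_right ?_ (norm_nonneg _)
      refine (norm_sum_le _ _).trans ?_
      rw [Finset.mul_sum]
      refine Finset.sum_le_sum fun k _ => ?_
      rw [norm_mul, norm_star, Complex.norm_real, Real.norm_eq_abs, mul_comm]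
      exact mul_le_mul_of_nonneg_right (h6 τ' h' k l) (norm_nonneg _)
    refine (Finset.sum_le_sum h8).trans (le_of_eq ?_)
    rw [← Finset.mul_sum]
    ring
  have h8 : (∑ k, ‖M k j‖) ^ 2 ≤ g * ∑ k, ‖M k j‖ ^ 2 := by
    have := sq_sum_le_card_mul_sum_sq (s := (Finset.univ : Finset (Fin g))) (f := fun k => ‖M k j‖)
    simpa using this
  have h9 : |(τ.1 j j).im| ≤ 9 / 8 := by
    have := h6 τ h j j
    rw [if_pos rfl] at this
    have h10 := abs_le.1 this
    rw [abs_le]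
    constructor <;> linarith
  set S : ℝ := ∑ k, ‖M k j‖ ^ 2 with hS
  have hS0 : 0 ≤ S := Finset.sum_nonneg fun _ _ => by positivity
  have h10 : S ≤ 9 / 8 + 1 / 8 * S := by
    calc S = ‖((S : ℝ) : ℂ)‖ := by rw [Complex.norm_real, Real.norm_eq_abs, abs_of_nonneg hS0]
      _ ≤ ‖((τ.1 j j).im : ℂ)‖ + ‖∑ l, (∑ k, star (M k j) *
          (((τ'.1 k l).im - (if k = l then 1 else 0) : ℝ) : ℂ)) * M l j‖ := by
          rw [h5]
          exact norm_sub_le _ _
      _ ≤ 9 / 8 + r * (∑ k, ‖M k j‖) ^ 2 := by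
          rw [Complex.norm_real, Real.norm_eq_abs]
          exact add_le_add h9 h7
      _ ≤ 9 / 8 + r * (g * S) := by gcongr
      _ = 9 / 8 + 1 / 8 * S := by rw [← hr]; ring
  linarith

theorem near_orbit (hg : 0 < g) {τ τ' : SymMat g} (h : Near (1 / (8 * (g : ℝ))) τ)
    (h' : Near (1 / (8 * (g : ℝ))) τ') (hO : SameOrbit τ τ') :
    ∃ D : Fin g → ℂ, (∀ i, D i = 1 ∨ D i = -1) ∧ ∀ i j, τ'.1 i j = D i * τ.1 i j * D j := by
  obtain ⟨γ, ⟨hγ, h2, -, -⟩, hτ⟩ := hO
  change Matrix.of τ'.1 = (cm γ.toBlocks₁₁ * Matrix.of τ.1 + cm γ.toBlocks₁₂) *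
    (cm γ.toBlocks₂₁ * Matrix.of τ.1 + cm γ.toBlocks₂₂)⁻¹ at hτ
  obtain ⟨r1, r2, r3, r4⟩ := symplectic_rel γ hγ
  have ha : ∀ i j, (2 : ℤ) ∣ γ.toBlocks₁₁ i j - (if i = j then 1 else 0) := by
    intro i j
    have := h2 (Sum.inl i) (Sum.inl j)
    simpa [Matrix.one_apply, toBlocks₁₁] using this
  have hb : ∀ i j, (2 : ℤ) ∣ γ.toBlocks₁₂ i j := by
    intro i j
    have := h2 (Sum.inl i) (Sum.inr j)
    simpa [Matrix.one_apply, toBlocks₁₂] using this
  have hc : ∀ i j, (2 : ℤ) ∣ γ.toBlocks₂₁ i j := by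
    intro i j
    have := h2 (Sum.inr i) (Sum.inl j)
    simpa [Matrix.one_apply, toBlocks₂₁] using this
  have hd : ∀ i j, (2 : ℤ) ∣ γ.toBlocks₂₂ i j - (if i = j then 1 else 0) := by
    intro i j
    have := h2 (Sum.inr i) (Sum.inr j)
    simpa [Matrix.one_apply, toBlocks₂₂] using this
  generalize γ.toBlocks₁₁ = a at *
  generalize γ.toBlocks₁₂ = b at *
  generalize γ.toBlocks₂₁ = c at *
  generalize γ.toBlocks₂₂ = d at *
  have hg' : (1 : ℝ) ≤ g := by exact_mod_cast hg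
  have hr : (g : ℝ) * (1 / (8 * (g : ℝ))) = 1 / 8 := by field_simp
  have hr0 : 0 < 1 / (8 * (g : ℝ)) := by positivity
  have hr1 : 1 / (8 * (g : ℝ)) ≤ 1 / 8 := by
    rw [← hr]
    exact le_mul_of_one_le_left hr0.le hg'
  -- `M` is invertible
  set M : Matrix (Fin g) (Fin g) ℂ := cm c * Matrix.of τ.1 + cm d with hMdef
  have hMu : IsUnit M.det := by
    by_contra hcon
    rw [Matrix.nonsing_inv_apply_not_isUnit _ hcon, Matrix.mul_zero] at hτ
    have h3 := congrFun (congrFun hτ ⟨0, hg⟩) ⟨0, hg⟩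
    have h4 := h' ⟨0, hg⟩ ⟨0, hg⟩
    have h5 : τ'.1 ⟨0, hg⟩ ⟨0, hg⟩ = 0 := h3
    rw [h5, base_apply, if_pos rfl, zero_sub, norm_neg, Complex.norm_I] at h4
    linarith
  have hT : Matrix.of τ'.1 * M = cm a * Matrix.of τ.1 + cm b := by
    rw [hτ, Matrix.mul_assoc, Matrix.nonsing_inv_mul _ hMu, Matrix.mul_one]
  have hM := imag_rel r1 r2 r3 r4 (Matrix.of τ.1) (Matrix.of τ'.1) hT
  rw [← hMdef] at hM
  have hcol := col_bound hg h h' M hM
  have hτe : ∀ k l, |(τ.1 k l).im - (if k = l then 1 else 0)| ≤ 1 / (8 * (g : ℝ)) := by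
    intro k l
    have h8 : ((τ.1 k l).im - (if k = l then 1 else 0)) = (τ.1 k l - (base g).1 k l).im := by
      rw [base_apply]
      split_ifs <;> simp
    rw [h8]
    exact (Complex.abs_im_le_norm _).trans (h k l).le
  -- `c = 0`
  have hc0 : c = 0 := by
    by_contra hcon
    have hne : (Finset.univ : Finset (Fin g × Fin g)).Nonempty := ⟨(⟨0, hg⟩, ⟨0, hg⟩), Finset.mem_univ _⟩
    obtain ⟨⟨k, j⟩, -, hmax⟩ := Finset.exists_max_image Finset.univ (fun x : Fin g × Fin g =>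
      |(c x.1 x.2 : ℝ)|) hne
    have hmax' : ∀ k' l', |(c k' l' : ℝ)| ≤ |(c k j : ℝ)| := fun k' l' => hmax (k', l') (Finset.mem_univ _)
    -- the imaginary part of `M k j`
    have h3 : (M k j).im = (c k j : ℝ) + ∑ l, (c k l : ℝ) * ((τ.1 l j).im - (if l = j then 1 else 0)) := by
      have h4 : (M k j).im = ∑ l, (c k l : ℝ) * (τ.1 l j).im := by
        rw [hMdef, Matrix.add_apply, Matrix.mul_apply, Complex.add_im, Complex.im_sum]
        simp [cm, Matrix.map_apply]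
      rw [h4]
      simp only [mul_sub, Finset.sum_sub_distrib]
      simp
    have h4 : |∑ l, (c k l : ℝ) * ((τ.1 l j).im - (if l = j then 1 else 0))| ≤ 1 / 8 * |(c k j : ℝ)| := by
      refine (Finset.abs_sum_le_sum_abs _ _).trans ?_
      have h5 : ∀ l ∈ (Finset.univ : Finset (Fin g)),
          |(c k l : ℝ) * ((τ.1 l j).im - (if l = j then 1 else 0))| ≤
          |(c k j : ℝ)| * (1 / (8 * (g : ℝ))) := by
        intro l _
        rw [abs_mul]
        exact mul_le_mul (hmax' k l) (hτe l j) (abs_nonneg _) (abs_nonneg _)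
      refine (Finset.sum_le_sum h5).trans (le_of_eq ?_)
      rw [Finset.sum_const, Finset.card_univ, Fintype.card_fin, nsmul_eq_mul, ← hr]
      ring
    have h5 : ‖M k j‖ ^ 2 ≤ 9 / 7 :=
      (Finset.single_le_sum (f := fun k => ‖M k j‖ ^ 2) (fun _ _ => by positivity)
        (Finset.mem_univ k)).trans (hcol j)
    have h6 : |(M k j).im| ≤ 8 / 7 := by
      have h7 := Complex.abs_im_le_norm (M k j)
      have h8 : ‖M k j‖ ≤ 8 / 7 := by
        apply le_of_sq_le_sq _ (by norm_num)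
        linarith
      exact h7.trans h8
    have h7 : |(c k j : ℝ)| ≤ 8 / 7 + 1 / 8 * |(c k j : ℝ)| := by
      have : (c k j : ℝ) = (M k j).im - ∑ l, (c k l : ℝ) * ((τ.1 l j).im - (if l = j then 1 else 0)) := by
        rw [h3]; ring
      calc |(c k j : ℝ)| = |(M k j).im - ∑ l, (c k l : ℝ) * ((τ.1 l j).im - (if l = j then 1 else 0))| := by
            rw [← this]
        _ ≤ |(M k j).im| + |∑ l, (c k l : ℝ) * ((τ.1 l j).im - (if l = j then 1 else 0))| := abs_sub _ _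
        _ ≤ _ := add_le_add h6 h4
    have h8 : |(c k j : ℝ)| < 2 := by linarith
    have h9 : |c k j| < 2 := by exact_mod_cast h8
    have h10 : c k j = 0 := by
      obtain ⟨m, hm⟩ := hc k j
      rw [hm] at h9 ⊢
      rw [abs_lt] at h9
      omega
    apply hcon
    ext k' l'
    have h11 := hmax' k' l'
    rw [h10, Int.cast_zero, abs_zero] at h11
    have h12 := abs_eq_zero.1 (le_antisymm h11 (abs_nonneg _))
    exact_mod_cast h12
  subst hc0
  have hMd : M = cm d := by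
    rw [hMdef]
    ext i j
    simp [cm]
  rw [hMd] at hcol hT
  -- the columns of `d`
  have hsum : ∀ j, ∑ k, (d k j) ^ 2 ≤ 1 := by
    intro j
    have h3 := hcol j
    have h4 : ∑ k, ‖cm d k j‖ ^ 2 = ((∑ k, (d k j) ^ 2 : ℤ) : ℝ) := by
      push_cast
      refine Finset.sum_congr rfl fun k _ => ?_
      simp [cm, Matrix.map_apply]
    rw [h4] at h3
    have h5 : ((∑ k, (d k j) ^ 2 : ℤ) : ℝ) < 2 := by linarith
    have h6 : (∑ k, (d k j) ^ 2 : ℤ) < 2 := by exact_mod_cast h5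
    omega
  have hdiag : ∀ j, (d j j) ^ 2 = 1 := by
    intro j
    have h3 : (d j j) ^ 2 ≤ ∑ k, (d k j) ^ 2 :=
      Finset.single_le_sum (f := fun k => (d k j) ^ 2) (fun _ _ => sq_nonneg _) (Finset.mem_univ j)
    have h4 := hsum j
    have h5 := hd j j
    rw [if_pos rfl] at h5
    have h6 : d j j ≠ 0 := by
      intro h7
      rw [h7] at h5
      omega
    have h7 : 0 < (d j j) ^ 2 := by positivity
    omega
  have hoff : ∀ k j, k ≠ j → d k j = 0 := by
    intro k j hkj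
    have h3 : (d k j) ^ 2 + (d j j) ^ 2 ≤ ∑ k, (d k j) ^ 2 := by
      rw [← Finset.sum_pair (f := fun k => (d k j) ^ 2) hkj]
      exact Finset.sum_le_sum_of_subset_of_nonneg (Finset.subset_univ _) fun _ _ _ => sq_nonneg _
    have h4 := hsum j
    have h5 := hdiag j
    have h6 : (d k j) ^ 2 = 0 := by
      have := sq_nonneg (d k j)
      omega
    exact pow_eq_zero_iff (two_ne_zero) |>.1 h6
  have haeq : ∀ j i, a j i = if j = i then d j j else 0 := by
    intro j i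
    have h3 := congrFun (congrFun r3 j) i
    rw [Matrix.sub_apply, Matrix.mul_apply, Matrix.mul_apply, Finset.sum_eq_single j] at h3
    · simp only [transpose_apply, Matrix.zero_apply, mul_zero, Finset.sum_const_zero, sub_zero] at h3
      have h4 : a j i = d j j * (d j j * a j i) := by
        rw [← mul_assoc, ← sq, hdiag, one_mul]
      rw [h4, h3, Matrix.one_apply]
      split_ifs <;> simp
    · intro k _ hk
      rw [transpose_apply, hoff k j hk, zero_mul]
    · simp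
  have hent : ∀ i j, τ'.1 i j * (d j j : ℂ) = (d i i : ℂ) * τ.1 i j + (b i j : ℂ) := by
    intro i j
    have h3 := congrFun (congrFun hT i) j
    rw [Matrix.add_apply, Matrix.mul_apply, Matrix.mul_apply, Finset.sum_eq_single j,
      Finset.sum_eq_single i] at h3
    · simpa [cm, Matrix.map_apply, haeq] using h3
    · intro k _ hk
      rw [cm, Matrix.map_apply, haeq, if_neg (Ne.symm hk)]
      simp
    · simp
    · intro k _ hk
      rw [cm, Matrix.map_apply, hoff k j hk]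
      simp
    · simp
  have hd1 : ∀ i, (d i i : ℂ) = 1 ∨ (d i i : ℂ) = -1 := by
    intro i
    rcases mul_self_eq_one_iff.1 ((sq (d i i)).symm.trans (hdiag i)) with h3 | h3
    · left; rw [h3]; simp
    · right; rw [h3]; simp
  have hb0 : ∀ i j, b i j = 0 := by
    intro i j
    have h3 : (b i j : ℂ) = τ'.1 i j * (d j j : ℂ) - (d i i : ℂ) * τ.1 i j := by
      rw [hent i j]; ring
    have hn : ∀ i, ‖(d i i : ℂ)‖ = 1 := by
      intro i
      rcases hd1 i with h4 | h4 <;> rw [h4] <;> simp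
    have h4 : ‖(b i j : ℂ)‖ < 2 := by
      rw [h3]
      have h5 := h i j
      have h6 := h' i j
      rw [base_apply] at h5 h6
      by_cases hij : i = j
      · subst hij
        rw [if_pos rfl] at h5 h6
        have h7 : τ'.1 i i * (d i i : ℂ) - (d i i : ℂ) * τ.1 i i =
            (d i i : ℂ) * ((τ'.1 i i - I) - (τ.1 i i - I)) := by ring
        rw [h7, norm_mul, hn, one_mul]
        refine (norm_sub_le _ _).trans_lt ?_
        linarith
      · rw [if_neg hij, sub_zero] at h5 h6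
        refine (norm_sub_le _ _).trans_lt ?_
        rw [norm_mul, norm_mul, hn, hn]
        linarith
    rw [Complex.norm_intCast] at h4
    have h5 : |b i j| < 2 := by exact_mod_cast h4
    obtain ⟨m, hm⟩ := hb i j
    rw [hm] at h5 ⊢
    rw [abs_lt] at h5
    omega
  refine ⟨fun i => (d i i : ℂ), hd1, fun i j => ?_⟩
  have h3 := hent i j
  rw [hb0 i j, Int.cast_zero, add_zero] at h3
  rw [← h3, mul_assoc]
  have h4 : (d j j : ℂ) * (d j j : ℂ) = 1 := by
    rcases hd1 j with h4 | h4 <;> rw [h4] <;> norm_num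
  rw [h4, mul_one]

end Pool.Agent.V7H1.ThetaMap
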