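import Mathlib

set_option autoImplicit false

namespace Pool.Agent.V7H1.ThetaMap

open Complex Filter Topology

/-- Products of summable nonnegative functions are summable over `ℤ^g`. -/
theorem summable_pi {g : ℕ} (φ : Fin g → ℤ → ℝ) (h0 : ∀ i n, 0 ≤ φ i n)
    (hs : ∀ i, Summable (φ i)) : Summable fun n : Fin g → ℤ => ∏ i, φ i (n i) := by
  classical
  refine summable_of_sum_le (c := ∏ i, ∑' k, φ i k) (fun n => Finset.prod_nonneg fun i _ => h0 i _) ?_
  intro u
  calc ∑ n ∈ u, ∏ i, φ i (n i)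
      ≤ ∑ n ∈ Fintype.piFinset (fun i => u.image fun n => n i), ∏ i, φ i (n i) := by
        refine Finset.sum_le_sum_of_subset_of_nonneg ?_ ?_
        · intro n hn
          rw [Fintype.mem_piFinset]
          exact fun i => Finset.mem_image_of_mem _ hn
        · exact fun n _ _ => Finset.prod_nonneg fun i _ => h0 i _
    _ = ∏ i, ∑ k ∈ u.image (fun n => n i), φ i k := (Finset.prod_univ_sum _ _).symm
    _ ≤ ∏ i, ∑' k, φ i k := by
        refine Finset.prod_le_prod (fun i _ => Finset.sum_nonneg fun k _ => h0 i k) ?_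
        exact fun i _ => (hs i).sum_le_tsum _ fun k _ => h0 i k

theorem summable_exp_neg_abs : Summable fun n : ℤ => Real.exp (-|(n : ℝ)|) := by
  have h : Summable fun n : ℕ => Real.exp (-(n : ℝ)) := by
    have := Real.summable_exp_neg_nat
    simpa using this
  refine Summable.of_nat_of_neg ?_ ?_
  · simpa using h
  · simpa using h

/-- the weight `exp (-2 π x²) (1 + x²)²` is summable over a translate of `ℤ`. -/
theorem summable_weight (e : Fin 2) :
    Summable fun n : ℤ => Real.exp (-(2 * Real.pi * ((n : ℝ) + (e : ℕ) / 2) ^ 2)) *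
      (1 + ((n : ℝ) + (e : ℕ) / 2) ^ 2) := by
  refine Summable.of_nonneg_of_le (fun n => by positivity) ?_
    (summable_exp_neg_abs.mul_left (Real.exp 1))
  intro n
  set x : ℝ := (n : ℝ) + (e : ℕ) / 2 with hx
  have h1 : 1 + x ^ 2 ≤ Real.exp (x ^ 2) := by
    have := Real.add_one_le_exp (x ^ 2)
    linarith
  have h2 : |(n : ℝ)| - 1 ≤ x ^ 2 := by
    have he : ((e : ℕ) : ℝ) = 0 ∨ ((e : ℕ) : ℝ) = 1 := by
      fin_cases e <;> simp
    have hz : (0 : ℝ) ≤ (|(n : ℝ)| - 1) ^ 2 := sq_nonneg _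
    have habs : |(n : ℝ)| ^ 2 = (n : ℝ) ^ 2 := sq_abs _
    have h3 : -|(n : ℝ)| ≤ n := neg_abs_le _
    have h5 := abs_nonneg (n : ℝ)
    rcases he with he | he
    · rw [hx, he]
      nlinarith
    · rw [hx, he]
      nlinarith
  have h3 : (3 : ℝ) < Real.pi := Real.pi_gt_three
  calc Real.exp (-(2 * Real.pi * x ^ 2)) * (1 + x ^ 2)
      ≤ Real.exp (-(2 * Real.pi * x ^ 2)) * Real.exp (x ^ 2) := by gcongr
    _ = Real.exp (-(2 * Real.pi * x ^ 2) + x ^ 2) := (Real.exp_add _ _).symm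
    _ ≤ Real.exp (1 + -|(n : ℝ)|) := by
        apply Real.exp_le_exp.2
        nlinarith [sq_nonneg x]
    _ = Real.exp 1 * Real.exp (-|(n : ℝ)|) := Real.exp_add _ _

section

variable {g : ℕ}

/-- the point `n + ε/2` -/
noncomputable def pt (ε : Fin g → Fin 2) (n : Fin g → ℤ) (i : Fin g) : ℝ :=
  (n i : ℝ) + ((ε i : ℕ) : ℝ) / 2

/-- the weight `exp (-2 π |n + ε/2|²)` -/
noncomputable def wt (ε : Fin g → Fin 2) (n : Fin g → ℤ) : ℝ :=
  ∏ i, Real.exp (-(2 * Real.pi * (pt ε n i) ^ 2))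

theorem wt_pos (ε : Fin g → Fin 2) (n : Fin g → ℤ) : 0 < wt ε n :=
  Finset.prod_pos fun _ _ => Real.exp_pos _

/-- the summable majorant -/
noncomputable def maj (ε : Fin g → Fin 2) (n : Fin g → ℤ) : ℝ :=
  ∏ i, (Real.exp (-(2 * Real.pi * (pt ε n i) ^ 2)) * (1 + (pt ε n i) ^ 2))

theorem summable_maj (ε : Fin g → Fin 2) : Summable (maj ε) :=
  summable_pi (fun i n => Real.exp (-(2 * Real.pi * ((n : ℝ) + ((ε i : ℕ) : ℝ) / 2) ^ 2)) *
      (1 + ((n : ℝ) + ((ε i : ℕ) : ℝ) / 2) ^ 2)) (fun _ _ => by positivity)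
    (fun i => summable_weight (ε i))

theorem wt_le_maj (ε : Fin g → Fin 2) (n : Fin g → ℤ) : wt ε n ≤ maj ε n := by
  unfold wt maj
  refine Finset.prod_le_prod (fun i _ => (Real.exp_pos _).le) fun i _ => ?_
  refine le_mul_of_one_le_right (Real.exp_pos _).le ?_
  nlinarith [sq_nonneg (pt ε n i)]

theorem summable_wt (ε : Fin g → Fin 2) : Summable (wt ε) :=
  Summable.of_nonneg_of_le (fun n => (wt_pos ε n).le) (wt_le_maj ε) (summable_maj ε)

/-- `wt · x_a² x_b² x_c² x_d² ≤ maj` for distinct `a`, `b`, `c`, `d`. -/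
theorem wt_mul_le (ε : Fin g → Fin 2) (n : Fin g → ℤ) (p : Fin 4 → Fin g)
    (hp : Function.Injective p) :
    wt ε n * ∏ k, (pt ε n (p k)) ^ 2 ≤ maj ε n := by
  classical
  unfold wt maj
  rw [Finset.prod_mul_distrib]
  refine mul_le_mul_of_nonneg_left ?_ (Finset.prod_nonneg fun i _ => (Real.exp_pos _).le)
  calc ∏ k, (pt ε n (p k)) ^ 2 ≤ ∏ k, (1 + (pt ε n (p k)) ^ 2) :=
        Finset.prod_le_prod (fun k _ => sq_nonneg _) fun k _ => by linarith
    _ = ∏ i ∈ Finset.univ.image p, (1 + (pt ε n i) ^ 2) := by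
        rw [Finset.prod_image fun a _ b _ h => hp h]
    _ ≤ ∏ i, (1 + (pt ε n i) ^ 2) := by
        rw [← Finset.prod_sdiff (Finset.subset_univ (Finset.univ.image p))]
        refine le_mul_of_one_le_left (Finset.prod_nonneg fun i _ => by positivity) ?_
        refine Finset.prod_induction (fun i => 1 + (pt ε n i) ^ 2) (fun x => 1 ≤ x)
          (fun a b ha hb => one_le_mul_of_one_le_of_one_le ha hb) le_rfl fun i _ => ?_
        nlinarith [sq_nonneg (pt ε n i)]

/-- changing the sign of the coordinate `j` of `n + ε/2` -/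
noncomputable def flip (ε : Fin g → Fin 2) (j : Fin g) : (Fin g → ℤ) ≃ (Fin g → ℤ) :=
  Function.Involutive.toPerm (fun n => Function.update n j (-n j - ((ε j : ℕ) : ℤ))) (by
    intro n
    funext i
    rcases eq_or_ne i j with h | h
    · subst h
      simp
    · simp [h])

theorem flip_apply (ε : Fin g → Fin 2) (j : Fin g) (n : Fin g → ℤ) :
    flip ε j n = Function.update n j (-n j - ((ε j : ℕ) : ℤ)) := rfl

theorem pt_flip_same (ε : Fin g → Fin 2) (j : Fin g) (n : Fin g → ℤ) :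
    pt ε (flip ε j n) j = - pt ε n j := by
  unfold pt
  rw [flip_apply, Function.update_self]
  push_cast
  ring

theorem pt_flip_ne (ε : Fin g → Fin 2) {j i : Fin g} (h : i ≠ j) (n : Fin g → ℤ) :
    pt ε (flip ε j n) i = pt ε n i := by
  unfold pt
  rw [flip_apply, Function.update_of_ne h]

theorem wt_flip (ε : Fin g → Fin 2) (j : Fin g) (n : Fin g → ℤ) :
    wt ε (flip ε j n) = wt ε n := by
  unfold wt
  refine Finset.prod_congr rfl fun i _ => ?_
  rcases eq_or_ne i j with h | h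
  · subst h
    rw [pt_flip_same]
    congr 2
    ring
  · rw [pt_flip_ne ε h]

/-- averaging over a symmetry -/
theorem tsum_average {α : Type*} (e : α ≃ α) (G : α → ℂ) (hG : Summable G) :
    ∑' n, G n = ∑' n, (G n + G (e n)) / 2 := by
  have h1 : Summable fun n => G (e n) := (e.summable_iff (f := G)).2 hG
  have h2 : ∑' n, G (e n) = ∑' n, G n := e.tsum_eq G
  have h3 : ∑' n, (G n + G (e n)) = ∑' n, G n + ∑' n, G (e n) := hG.tsum_add h1
  rw [tsum_div_const, h3, h2]
  ring

/-- the terms of the theta constants at the matrices `i 1_g + ` a four cycle -/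
noncomputable def term (ε : Fin g → Fin 2) (p : Fin 4 → Fin g) (σ s : ℝ) (n : Fin g → ℤ) : ℂ :=
  (wt ε n : ℂ) * cexp (((4 * Real.pi * s * (σ * pt ε n (p 0) * pt ε n (p 1) +
    pt ε n (p 1) * pt ε n (p 2) + pt ε n (p 2) * pt ε n (p 3) + pt ε n (p 3) * pt ε n (p 0)) : ℝ)) * I)

theorem norm_term (ε : Fin g → Fin 2) (p : Fin 4 → Fin g) (σ s : ℝ) (n : Fin g → ℤ) :
    ‖term ε p σ s n‖ = wt ε n := by
  unfold term
  rw [norm_mul, Complex.norm_exp_ofReal_mul_I, mul_one, Complex.norm_real, Real.norm_eq_abs,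
    abs_of_pos (wt_pos ε n)]

theorem summable_term (ε : Fin g → Fin 2) (p : Fin 4 → Fin g) (σ s : ℝ) :
    Summable (term ε p σ s) :=
  Summable.of_norm (by
    simp_rw [norm_term]
    exact summable_wt ε)

theorem tendsto_term (ε : Fin g → Fin 2) (p : Fin 4 → Fin g) (σ : ℝ) :
    Tendsto (fun s : ℝ => ∑' n, term ε p σ s n) (𝓝 0) (𝓝 (∑' n, (wt ε n : ℂ))) := by
  refine tendsto_tsum_of_dominated_convergence (summable_wt ε) ?_
    (Eventually.of_forall fun s n => (norm_term ε p σ s n).le)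
  intro n
  have h : Continuous fun s : ℝ => term ε p σ s n := by
    unfold term
    fun_prop
  have h2 := h.tendsto 0
  have h3 : term ε p σ 0 n = (wt ε n : ℂ) := by
    unfold term
    simp
  rwa [h3] at h2

/-- the four sines -/
noncomputable def sines (ε : Fin g → Fin 2) (p : Fin 4 → Fin g) (s : ℝ) (n : Fin g → ℤ) : ℝ :=
  Real.sin (4 * Real.pi * s * (pt ε n (p 0) * pt ε n (p 1))) *
  Real.sin (4 * Real.pi * s * (pt ε n (p 1) * pt ε n (p 2))) *
  Real.sin (4 * Real.pi * s * (pt ε n (p 2) * pt ε n (p 3))) *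
  Real.sin (4 * Real.pi * s * (pt ε n (p 3) * pt ε n (p 0)))

theorem summable_of_le_wt (ε : Fin g → Fin 2) (C : ℝ) (G : (Fin g → ℤ) → ℂ)
    (h : ∀ n, ‖G n‖ ≤ C * wt ε n) : Summable G :=
  Summable.of_norm (Summable.of_nonneg_of_le (fun _ => norm_nonneg _) h
    ((summable_wt ε).mul_left C))

theorem exp_sub' (x y : ℝ) : cexp (((x + y : ℝ) : ℂ) * I) - cexp (((-x + y : ℝ) : ℂ) * I) =
    2 * I * (Real.sin x : ℝ) * cexp ((y : ℂ) * I) := by
  push_cast
  simp only [Complex.exp_mul_I, Complex.cos_add, Complex.sin_add, Complex.cos_neg, Complex.sin_neg]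
  ring_nf
  simp only [Complex.I_sq]
  ring

theorem pt_flip_p (ε : Fin g → Fin 2) (p : Fin 4 → Fin g) (hp : Function.Injective p) (j k : Fin 4)
    (n : Fin g → ℤ) :
    pt ε (flip ε (p j) n) (p k) = if k = j then - pt ε n (p k) else pt ε n (p k) := by
  by_cases h : k = j
  · subst h
    rw [if_pos rfl, pt_flip_same]
  · rw [if_neg h, pt_flip_ne ε fun h' => h (hp h')]

theorem diff_eq (ε : Fin g → Fin 2) (p : Fin 4 → Fin g) (hp : Function.Injective p) (s : ℝ) :
    (∑' n, term ε p 1 s n) - ∑' n, term ε p (-1) s n =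
      ∑' n, (2 * (wt ε n * sines ε p s n) : ℂ) := by
  -- the four arguments
  let A : (Fin g → ℤ) → ℝ := fun n => 4 * Real.pi * s * (pt ε n (p 0) * pt ε n (p 1))
  let B : (Fin g → ℤ) → ℝ := fun n => 4 * Real.pi * s * (pt ε n (p 1) * pt ε n (p 2))
  let C : (Fin g → ℤ) → ℝ := fun n => 4 * Real.pi * s * (pt ε n (p 2) * pt ε n (p 3))
  let D : (Fin g → ℤ) → ℝ := fun n => 4 * Real.pi * s * (pt ε n (p 3) * pt ε n (p 0))
  have hA1 : ∀ n, A (flip ε (p 1) n) = - A n := by
    intro n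
    simp only [A, pt_flip_p ε p hp]
    simp
  have hB1 : ∀ n, B (flip ε (p 1) n) = - B n := by
    intro n
    simp only [B, pt_flip_p ε p hp]
    simp
  have hC1 : ∀ n, C (flip ε (p 1) n) = C n := by
    intro n
    simp only [C, pt_flip_p ε p hp]
    simp
  have hD1 : ∀ n, D (flip ε (p 1) n) = D n := by
    intro n
    simp only [D, pt_flip_p ε p hp]
    simp
  have hA2 : ∀ n, A (flip ε (p 2) n) = A n := by
    intro n
    simp only [A, pt_flip_p ε p hp]
    simp
  have hB2 : ∀ n, B (flip ε (p 2) n) = - B n := by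
    intro n
    simp only [B, pt_flip_p ε p hp]
    simp
  have hC2 : ∀ n, C (flip ε (p 2) n) = - C n := by
    intro n
    simp only [C, pt_flip_p ε p hp]
    simp
  have hD2 : ∀ n, D (flip ε (p 2) n) = D n := by
    intro n
    simp only [D, pt_flip_p ε p hp]
    simp
  have hA3 : ∀ n, A (flip ε (p 3) n) = A n := by
    intro n
    simp only [A, pt_flip_p ε p hp]
    simp
  have hB3 : ∀ n, B (flip ε (p 3) n) = B n := by
    intro n
    simp only [B, pt_flip_p ε p hp]
    simp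
  have hC3 : ∀ n, C (flip ε (p 3) n) = - C n := by
    intro n
    simp only [C, pt_flip_p ε p hp]
    simp
  have hD3 : ∀ n, D (flip ε (p 3) n) = - D n := by
    intro n
    simp only [D, pt_flip_p ε p hp]
    simp
  let G0 : (Fin g → ℤ) → ℂ := fun n =>
    (wt ε n : ℂ) * (2 * I * (Real.sin (A n) : ℝ) * cexp (((B n + (C n + D n) : ℝ) : ℂ) * I))
  let G1 : (Fin g → ℤ) → ℂ := fun n =>
    (wt ε n : ℂ) * (-2 * (Real.sin (A n) : ℝ) * (Real.sin (B n) : ℝ) *
      cexp (((C n + D n : ℝ) : ℂ) * I))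
  let G2 : (Fin g → ℤ) → ℂ := fun n =>
    (wt ε n : ℂ) * (-2 * I * (Real.sin (A n) : ℝ) * (Real.sin (B n) : ℝ) * (Real.sin (C n) : ℝ) *
      cexp ((D n : ℂ) * I))
  have hn0 : ∀ n, ‖G0 n‖ ≤ 2 * wt ε n := by
    intro n
    simp only [G0]
    rw [norm_mul, norm_mul, Complex.norm_exp_ofReal_mul_I, mul_one, Complex.norm_real,
      Real.norm_eq_abs, abs_of_pos (wt_pos ε n), norm_mul, norm_mul, Complex.norm_I, mul_one,
      Complex.norm_real, Real.norm_eq_abs, Complex.norm_ofNat, mul_comm]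
    have := Real.abs_sin_le_one (A n)
    have h2 := wt_pos ε n
    nlinarith
  have hn1 : ∀ n, ‖G1 n‖ ≤ 2 * wt ε n := by
    intro n
    simp only [G1]
    rw [norm_mul, norm_mul, Complex.norm_exp_ofReal_mul_I, mul_one, Complex.norm_real,
      Real.norm_eq_abs, abs_of_pos (wt_pos ε n), norm_mul, norm_mul,
      Complex.norm_real, Complex.norm_real, Real.norm_eq_abs, Real.norm_eq_abs, norm_neg,
      Complex.norm_ofNat, mul_comm]
    have h1 := Real.abs_sin_le_one (A n)
    have h3 := Real.abs_sin_le_one (B n)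
    have h2 := wt_pos ε n
    have h4 : |Real.sin (A n)| * |Real.sin (B n)| ≤ 1 :=
      mul_le_one₀ h1 (abs_nonneg _) h3
    nlinarith
  have hn2 : ∀ n, ‖G2 n‖ ≤ 2 * wt ε n := by
    intro n
    simp only [G2]
    rw [norm_mul, norm_mul, Complex.norm_exp_ofReal_mul_I, mul_one, Complex.norm_real,
      Real.norm_eq_abs, abs_of_pos (wt_pos ε n), norm_mul, norm_mul, norm_mul, norm_mul,
      Complex.norm_real, Complex.norm_real, Complex.norm_real, Real.norm_eq_abs, Real.norm_eq_abs,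
      Real.norm_eq_abs, norm_neg, Complex.norm_ofNat, Complex.norm_I, mul_comm]
    have h1 := Real.abs_sin_le_one (A n)
    have h3 := Real.abs_sin_le_one (B n)
    have h5 := Real.abs_sin_le_one (C n)
    have h2 := wt_pos ε n
    have h4 : |Real.sin (A n)| * |Real.sin (B n)| ≤ 1 :=
      mul_le_one₀ h1 (abs_nonneg _) h3
    have h6 : |Real.sin (A n)| * |Real.sin (B n)| * |Real.sin (C n)| ≤ 1 :=
      mul_le_one₀ h4 (abs_nonneg _) h5
    nlinarith
  have e0 : (∑' n, term ε p 1 s n) - ∑' n, term ε p (-1) s n = ∑' n, G0 n := by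
    rw [← (summable_term ε p 1 s).tsum_sub (summable_term ε p (-1) s)]
    refine tsum_congr fun n => ?_
    have h := exp_sub' (A n) (B n + (C n + D n))
    simp only [G0]
    rw [← h, mul_sub]
    unfold term
    congr 4 <;> · simp only [A, B, C, D]; push_cast; ring
  have hI : I ^ 2 = (-1 : ℂ) := Complex.I_sq
  have e1 : ∑' n, G0 n = ∑' n, G1 n := by
    rw [tsum_average (flip ε (p 1)) G0 (summable_of_le_wt ε 2 G0 hn0)]
    refine tsum_congr fun n => ?_
    have h := exp_sub' (B n) (C n + D n)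
    simp only [G0, G1, wt_flip, hA1, hB1, hC1, hD1, Real.sin_neg, Complex.ofReal_neg]
    simp only [Complex.ofReal_neg, Complex.ofReal_add] at h ⊢
    linear_combination ((wt ε n : ℂ) * I * (Real.sin (A n) : ℝ)) * h +
      (2 * (wt ε n : ℂ) * (Real.sin (A n) : ℝ) * (Real.sin (B n) : ℝ) *
        cexp (((C n : ℂ) + D n) * I)) * hI
  have e2 : ∑' n, G1 n = ∑' n, G2 n := by
    rw [tsum_average (flip ε (p 2)) G1 (summable_of_le_wt ε 2 G1 hn1)]
    refine tsum_congr fun n => ?_
    have h := exp_sub' (C n) (D n)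
    simp only [G1, G2, wt_flip, hA2, hB2, hC2, hD2, Real.sin_neg, Complex.ofReal_neg]
    simp only [Complex.ofReal_neg, Complex.ofReal_add] at h ⊢
    linear_combination (-(wt ε n : ℂ) * (Real.sin (A n) : ℝ) * (Real.sin (B n) : ℝ)) * h
  have e3 : ∑' n, G2 n = ∑' n, (2 * (wt ε n * sines ε p s n) : ℂ) := by
    rw [tsum_average (flip ε (p 3)) G2 (summable_of_le_wt ε 2 G2 hn2)]
    refine tsum_congr fun n => ?_
    have h := exp_sub' (D n) 0
    simp only [G2, wt_flip, hA3, hB3, hC3, hD3, Real.sin_neg, Complex.ofReal_neg]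
    simp only [Complex.ofReal_neg, Complex.ofReal_add, add_zero, Complex.ofReal_zero, zero_mul,
      Complex.exp_zero, mul_one] at h ⊢
    have hs : ((sines ε p s n : ℝ) : ℂ) = (Real.sin (A n) : ℝ) * (Real.sin (B n) : ℝ) *
        (Real.sin (C n) : ℝ) * (Real.sin (D n) : ℝ) := by
      unfold sines
      simp only [Complex.ofReal_mul, A, B, C, D]
    rw [hs]
    linear_combination (-(wt ε n : ℂ) * I * (Real.sin (A n) : ℝ) * (Real.sin (B n) : ℝ) *
      (Real.sin (C n) : ℝ)) * h - (2 * (wt ε n : ℂ) * (Real.sin (A n) : ℝ) *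
      (Real.sin (B n) : ℝ) * (Real.sin (C n) : ℝ) * (Real.sin (D n) : ℝ)) * hI
  rw [e0, e1, e2, e3]

/-- `∏ x_k²` over the four indices -/
noncomputable def quad (ε : Fin g → Fin 2) (p : Fin 4 → Fin g) (n : Fin g → ℤ) : ℝ :=
  ∏ k, (pt ε n (p k)) ^ 2

theorem abs_sines_le (ε : Fin g → Fin 2) (p : Fin 4 → Fin g) (s : ℝ) (n : Fin g → ℤ) :
    |sines ε p s n| ≤ (4 * Real.pi) ^ 4 * s ^ 4 * quad ε p n := by
  have key : ∀ x : ℝ, |Real.sin (4 * Real.pi * s * x)| ≤ 4 * Real.pi * |s| * |x| := by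
    intro x
    refine (Real.abs_sin_le_abs).trans ?_
    rw [abs_mul, abs_mul, abs_of_pos (by positivity : (0 : ℝ) < 4 * Real.pi)]
  unfold sines quad
  rw [abs_mul, abs_mul, abs_mul]
  have h1 := key (pt ε n (p 0) * pt ε n (p 1))
  have h2 := key (pt ε n (p 1) * pt ε n (p 2))
  have h3 := key (pt ε n (p 2) * pt ε n (p 3))
  have h4 := key (pt ε n (p 3) * pt ε n (p 0))
  calc _ ≤ (4 * Real.pi * |s| * |pt ε n (p 0) * pt ε n (p 1)|) *
        (4 * Real.pi * |s| * |pt ε n (p 1) * pt ε n (p 2)|) *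
        (4 * Real.pi * |s| * |pt ε n (p 2) * pt ε n (p 3)|) *
        (4 * Real.pi * |s| * |pt ε n (p 3) * pt ε n (p 0)|) := by gcongr
    _ = _ := by
      rw [Fin.prod_univ_four, ← sq_abs (pt ε n (p 0)), ← sq_abs (pt ε n (p 1)),
        ← sq_abs (pt ε n (p 2)), ← sq_abs (pt ε n (p 3)), abs_mul, abs_mul, abs_mul, abs_mul,
        show s ^ 4 = |s| ^ 4 by rw [← abs_pow, abs_of_nonneg (by positivity)]]
      ring

theorem tendsto_sin_div (c : ℝ) : Tendsto (fun s : ℝ => Real.sin (c * s) / s) (𝓝[≠] 0) (𝓝 c) := by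
  have h : HasDerivAt (fun s : ℝ => Real.sin (c * s)) (Real.cos (c * 0) * c) 0 := by
    have h1 : HasDerivAt (fun s : ℝ => c * s) c 0 := by
      simpa using (hasDerivAt_id (0 : ℝ)).const_mul c
    exact h1.sin
  have h2 := h.tendsto_slope_zero
  simp only [mul_zero, Real.cos_zero, one_mul, zero_add, Real.sin_zero, sub_zero, smul_eq_mul] at h2
  refine h2.congr fun s => ?_
  rw [div_eq_inv_mul]

/-- the limit of the difference quotient of order four -/
theorem tendsto_diff (ε : Fin g → Fin 2) (p : Fin 4 → Fin g) (hp : Function.Injective p) :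
    Tendsto (fun s : ℝ => ((∑' n, term ε p 1 s n) - ∑' n, term ε p (-1) s n) / (s : ℂ) ^ 4)
      (𝓝[≠] 0) (𝓝 (∑' n, (2 * (wt ε n * ((4 * Real.pi) ^ 4 * quad ε p n)) : ℂ))) := by
  have h1 : Summable fun n => 2 * ((4 * Real.pi) ^ 4 * (wt ε n * quad ε p n)) := by
    refine (Summable.mul_left _ ?_).mul_left 2
    exact Summable.of_nonneg_of_le (fun n => mul_nonneg (wt_pos ε n).le
      (Finset.prod_nonneg fun _ _ => sq_nonneg _)) (fun n => wt_mul_le ε n p hp) (summable_maj ε)
  have h2 : Tendsto (fun s : ℝ => ∑' n, (2 * (wt ε n * (sines ε p s n / s ^ 4 : ℝ)) : ℂ))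
      (𝓝[≠] 0) (𝓝 (∑' n, (2 * (wt ε n * ((4 * Real.pi) ^ 4 * quad ε p n)) : ℂ))) := by
    refine tendsto_tsum_of_dominated_convergence h1 ?_ ?_
    · intro n
      have ha := tendsto_sin_div (4 * Real.pi * (pt ε n (p 0) * pt ε n (p 1)))
      have hb := tendsto_sin_div (4 * Real.pi * (pt ε n (p 1) * pt ε n (p 2)))
      have hc := tendsto_sin_div (4 * Real.pi * (pt ε n (p 2) * pt ε n (p 3)))
      have hd := tendsto_sin_div (4 * Real.pi * (pt ε n (p 3) * pt ε n (p 0)))
      have h3 := ((ha.mul hb).mul hc).mul hd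
      have h4 : Tendsto (fun s : ℝ => sines ε p s n / s ^ 4) (𝓝[≠] 0)
          (𝓝 ((4 * Real.pi) ^ 4 * quad ε p n)) := by
        have h7 : (fun s : ℝ => sines ε p s n / s ^ 4) = fun s : ℝ =>
            Real.sin (4 * Real.pi * (pt ε n (p 0) * pt ε n (p 1)) * s) / s *
            (Real.sin (4 * Real.pi * (pt ε n (p 1) * pt ε n (p 2)) * s) / s) *
            (Real.sin (4 * Real.pi * (pt ε n (p 2) * pt ε n (p 3)) * s) / s) *
            (Real.sin (4 * Real.pi * (pt ε n (p 3) * pt ε n (p 0)) * s) / s) := by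
          funext s
          unfold sines
          have hr : ∀ x : ℝ, 4 * Real.pi * s * x = 4 * Real.pi * x * s := fun x => by ring
          rw [hr, hr, hr, hr]
          ring
        rw [h7]
        convert h3 using 2
        unfold quad
        rw [Fin.prod_univ_four]
        ring
      have h5 := (Complex.continuous_ofReal.tendsto _).comp h4
      have h6 := (h5.const_mul (wt ε n : ℂ)).const_mul 2
      simpa using h6
    · refine Eventually.of_forall fun s n => ?_
      have hq : 0 ≤ quad ε p n := Finset.prod_nonneg fun _ _ => sq_nonneg _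
      have h3 : |sines ε p s n / s ^ 4| ≤ (4 * Real.pi) ^ 4 * quad ε p n := by
        rcases eq_or_ne s 0 with hs | hs
        · subst hs
          have : (0 : ℝ) ^ 4 = 0 := by norm_num
          rw [this, div_zero, abs_zero]
          positivity
        · rw [abs_div, abs_of_nonneg (by positivity : (0 : ℝ) ≤ s ^ 4), div_le_iff₀ (by positivity)]
          refine (abs_sines_le ε p s n).trans (le_of_eq ?_)
          ring
      rw [norm_mul, norm_mul, Complex.norm_real, Complex.norm_real, Real.norm_eq_abs,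
        Real.norm_eq_abs, abs_of_pos (wt_pos ε n), Complex.norm_ofNat]
      have := wt_pos ε n
      calc 2 * (wt ε n * |sines ε p s n / s ^ 4|)
          ≤ 2 * (wt ε n * ((4 * Real.pi) ^ 4 * quad ε p n)) := by gcongr
        _ = _ := by ring
  refine h2.congr fun s => ?_
  rw [diff_eq ε p hp s, ← tsum_div_const]
  refine tsum_congr fun n => ?_
  push_cast
  ring

end

end Pool.Agent.V7H1.ThetaMap
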