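import Pool.Agent.V7H1.ThetaMap.Defs
import Pool.Agent.V7H1.ThetaMap.Series

set_option autoImplicit false

namespace Pool.Agent.V7H1.ThetaMap

open Complex Filter Topology

variable {g : ℕ}

/-- the symmetric elementary matrix `E_ab + E_ba`, for `a ≠ b` -/
def edge (a b : Fin g) : SymMat g :=
  ⟨fun i j => (if i = a ∧ j = b then 1 else 0) + (if i = b ∧ j = a then 1 else 0), fun i j => by
    simp only [and_comm, add_comm]⟩

/-- the matrix `i 1_g` -/
noncomputable def base (g : ℕ) : SymMat g :=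
  ⟨fun i j => if i = j then I else 0, fun i j => by simp only [eq_comm]⟩

/-- the four cycle `p` with weights `σ s, s, s, s` -/
noncomputable def path (p : Fin 4 → Fin g) (σ s : ℝ) : SymMat g :=
  base g + ((s : ℂ) • ((σ : ℂ) • edge (p 0) (p 1) + edge (p 1) (p 2) + edge (p 2) (p 3) +
    edge (p 3) (p 0)))

theorem path_zero (p : Fin 4 → Fin g) (σ : ℝ) : path p σ 0 = base g := by
  unfold path
  simp

theorem continuous_path (p : Fin 4 → Fin g) (σ : ℝ) : Continuous fun s => path p σ s := by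
  unfold path
  fun_prop

theorem base_apply (i j : Fin g) : (base g).1 i j = if i = j then I else 0 := rfl

theorem edge_apply (a b i j : Fin g) : (edge a b).1 i j =
    (if i = a ∧ j = b then 1 else 0) + (if i = b ∧ j = a then 1 else 0) := rfl

theorem path_apply (p : Fin 4 → Fin g) (σ s : ℝ) (i j : Fin g) : (path p σ s).1 i j =
    (if i = j then I else 0) + s * (σ * (edge (p 0) (p 1)).1 i j + (edge (p 1) (p 2)).1 i j +
      (edge (p 2) (p 3)).1 i j + (edge (p 3) (p 0)).1 i j) := rfl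

theorem sum_edge (a b : Fin g) (x : Fin g → ℂ) :
    ∑ i, x i * ∑ j, (edge a b).1 i j * x j = 2 * (x a * x b) := by
  have h1 : ∀ i, ∑ j, (edge a b).1 i j * x j = (if i = a then x b else 0) + (if i = b then x a else 0) := by
    intro i
    simp only [edge_apply, add_mul, Finset.sum_add_distrib, ite_mul, one_mul, zero_mul]
    congr 1
    · by_cases h : i = a
      · simp [h]
      · simp [h]
    · by_cases h : i = b
      · simp [h]
      · simp [h]
  simp only [h1, mul_add, Finset.sum_add_distrib, mul_ite, mul_zero]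
  simp
  ring

theorem sum_path (p : Fin 4 → Fin g) (σ s : ℝ) (x : Fin g → ℂ) :
    ∑ i, x i * ∑ j, (path p σ s).1 i j * x j = I * ∑ i, x i ^ 2 +
      2 * s * (σ * (x (p 0) * x (p 1)) + x (p 1) * x (p 2) + x (p 2) * x (p 3) +
        x (p 3) * x (p 0)) := by
  have h0 : ∑ i, x i * ∑ j, (if i = j then I else 0) * x j = I * ∑ i, x i ^ 2 := by
    rw [Finset.mul_sum]
    refine Finset.sum_congr rfl fun i _ => ?_
    simp only [ite_mul, zero_mul]
    simp
    ring
  have h1 : ∀ i, x i * ∑ j, (path p σ s).1 i j * x j =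
      x i * (∑ j, (if i = j then I else 0) * x j) +
      s * (σ * (x i * ∑ j, (edge (p 0) (p 1)).1 i j * x j) +
        x i * (∑ j, (edge (p 1) (p 2)).1 i j * x j) +
        x i * (∑ j, (edge (p 2) (p 3)).1 i j * x j) +
        x i * (∑ j, (edge (p 3) (p 0)).1 i j * x j)) := by
    intro i
    have h2 : ∑ j, (path p σ s).1 i j * x j = (∑ j, (if i = j then I else 0) * x j) +
      s * (σ * (∑ j, (edge (p 0) (p 1)).1 i j * x j) +
        (∑ j, (edge (p 1) (p 2)).1 i j * x j) +
        (∑ j, (edge (p 2) (p 3)).1 i j * x j) +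
        (∑ j, (edge (p 3) (p 0)).1 i j * x j)) := by
      simp only [path_apply, add_mul, Finset.sum_add_distrib, mul_add, Finset.mul_sum]
      simp only [mul_assoc]
    rw [h2]
    ring
  rw [Finset.sum_congr rfl fun i _ => h1 i]
  rw [Finset.sum_add_distrib, h0, ← Finset.mul_sum, Finset.sum_add_distrib, Finset.sum_add_distrib,
    Finset.sum_add_distrib, ← Finset.mul_sum, sum_edge, sum_edge, sum_edge, sum_edge]
  ring

theorem thetaConst_path (p : Fin 4 → Fin g) (σ s : ℝ) (ε : Fin g → Fin 2) :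
    thetaConst (path p σ s) ε = ∑' n, term ε p σ s n := by
  unfold thetaConst theta
  refine tsum_congr fun n => ?_
  have hx : ∀ i, ((n i : ℂ) + ((ε i : ℕ) : ℂ) / 2) = (pt ε n i : ℝ) := by
    intro i
    unfold pt
    push_cast
    ring
  simp only [hx, Pi.zero_apply, add_zero, mul_zero]
  have h1 : ∑ i, ((pt ε n i : ℝ) : ℂ) * ∑ j, ((2 : ℂ) • mat (path p σ s)) i j *
      ((pt ε n j : ℝ) : ℂ) =
      2 * ∑ i, ((pt ε n i : ℝ) : ℂ) * ∑ j, (path p σ s).1 i j * ((pt ε n j : ℝ) : ℂ) := by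
    rw [Finset.mul_sum]
    refine Finset.sum_congr rfl fun i _ => ?_
    have h2 : ∑ j, ((2 : ℂ) • mat (path p σ s)) i j * ((pt ε n j : ℝ) : ℂ) =
        2 * ∑ j, (path p σ s).1 i j * ((pt ε n j : ℝ) : ℂ) := by
      rw [Finset.mul_sum]
      refine Finset.sum_congr rfl fun j _ => ?_
      rw [Matrix.smul_apply, smul_eq_mul, mul_assoc]
      rfl
    rw [h2]
    ring
  rw [h1, sum_path]
  unfold term wt
  rw [← Real.exp_sum, Complex.ofReal_exp, ← Complex.exp_add]
  congr 1
  push_cast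
  rw [Finset.sum_neg_distrib, ← Finset.mul_sum]
  have hI : I ^ 2 = (-1 : ℂ) := Complex.I_sq
  linear_combination (2 * Real.pi * ∑ i, ((pt ε n i : ℝ) : ℂ) ^ 2) * hI

theorem thetaConst_base (p : Fin 4 → Fin g) (ε : Fin g → Fin 2) :
    thetaConst (base g) ε = ∑' n, (wt ε n : ℂ) := by
  rw [← path_zero p 1, thetaConst_path]
  refine tsum_congr fun n => ?_
  unfold term
  simp

theorem thetaConst_base_ne (p : Fin 4 → Fin g) : thetaConst (base g) ≠ 0 := by
  intro h
  have h1 := congrFun h 0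
  rw [thetaConst_base p, Pi.zero_apply, ← Complex.ofReal_tsum, Complex.ofReal_eq_zero] at h1
  have h2 : 0 < ∑' n, wt (0 : Fin g → Fin 2) n :=
    (summable_wt 0).tsum_pos (fun n => (wt_pos _ n).le) 0 (wt_pos _ 0)
  exact h2.ne' h1

theorem tendsto_thetaConst_path (p : Fin 4 → Fin g) (σ : ℝ) :
    Tendsto (fun s : ℝ => thetaConst (path p σ s)) (𝓝 0) (𝓝 (thetaConst (base g))) := by
  rw [tendsto_pi_nhds]
  intro ε
  simp only [thetaConst_path, thetaConst_base p]
  exact tendsto_term ε p σ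

/-- the limit vector -/
noncomputable def kap (p : Fin 4 → Fin g) (ε : Fin g → Fin 2) : ℂ :=
  ∑' n, (2 * (wt ε n * ((4 * Real.pi) ^ 4 * quad ε p n)) : ℂ)

theorem tendsto_kap (p : Fin 4 → Fin g) (hp : Function.Injective p) :
    Tendsto (fun s : ℝ => ((s : ℂ) ^ 4)⁻¹ • (thetaConst (path p 1 s) - thetaConst (path p (-1) s)))
      (𝓝[≠] 0) (𝓝 (kap p)) := by
  rw [tendsto_pi_nhds]
  intro ε
  refine (tendsto_diff ε p hp).congr fun s => ?_
  simp only [Pi.smul_apply, Pi.sub_apply, thetaConst_path, smul_eq_mul]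
  rw [div_eq_inv_mul]

theorem kap_perm (p : Fin 4 → Fin g) (e : Fin 4 ≃ Fin 4) : kap (p ∘ e) = kap p := by
  funext ε
  unfold kap
  refine tsum_congr fun n => ?_
  have : quad ε (p ∘ e) n = quad ε p n := by
    unfold quad
    exact Equiv.prod_comp e fun k => (pt ε n (p k)) ^ 2
  rw [this]

/-- the derivative at the base point -/
theorem deriv_kap (p : Fin 4 → Fin g) (hp : Function.Injective p)
    (F : ((Fin g → Fin 2) → ℂ) → ℂ) (F' : ((Fin g → Fin 2) → ℂ) →L[ℂ] ℂ)
    (hF : HasStrictFDerivAt F F' (thetaConst (base g))) (c : ℂ)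
    (h : ∀ᶠ s : ℝ in 𝓝[≠] 0,
      F (thetaConst (path p 1 s)) - F (thetaConst (path p (-1) s)) = c * (s : ℂ) ^ 4) :
    F' (kap p) = c := by
  have hX : Tendsto (fun s : ℝ => (thetaConst (path p 1 s), thetaConst (path p (-1) s))) (𝓝[≠] 0)
      (𝓝 (thetaConst (base g), thetaConst (base g))) := by
    rw [nhds_prod_eq]
    exact ((tendsto_thetaConst_path p 1).prodMk (tendsto_thetaConst_path p (-1))).mono_left
      nhdsWithin_le_nhds
  have h1 := hF.isLittleO.comp_tendsto hX
  have h2 := tendsto_kap p hp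
  -- the difference is `O(s⁴)`
  have h3 : (fun s : ℝ => thetaConst (path p 1 s) - thetaConst (path p (-1) s)) =O[𝓝[≠] 0]
      fun s : ℝ => (s : ℂ) ^ 4 := by
    have h4 := h2.isBigO_one ℂ
    have h5 : (fun s : ℝ => (s : ℂ) ^ 4 • (((s : ℂ) ^ 4)⁻¹ •
        (thetaConst (path p 1 s) - thetaConst (path p (-1) s)))) =O[𝓝[≠] 0]
        fun s : ℝ => (s : ℂ) ^ 4 • (1 : ℂ) := (Asymptotics.isBigO_refl _ _).smul h4
    refine h5.congr' ?_ ?_
    · filter_upwards [self_mem_nhdsWithin] with s hs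
      rw [smul_smul, mul_inv_cancel₀, one_smul]
      exact pow_ne_zero _ (by exact_mod_cast hs)
    · exact Eventually.of_forall fun s => by simp
  have h6 := (h1.trans_isBigO h3).tendsto_div_nhds_zero
  have h7 : Tendsto (fun s : ℝ => F' (((s : ℂ) ^ 4)⁻¹ •
      (thetaConst (path p 1 s) - thetaConst (path p (-1) s)))) (𝓝[≠] 0) (𝓝 (F' (kap p))) :=
    (F'.continuous.tendsto _).comp h2
  have h8 := h6.add h7
  rw [zero_add] at h8
  refine tendsto_nhds_unique h8 ?_
  refine (tendsto_const_nhds (x := c)).congr' ?_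
  filter_upwards [h, self_mem_nhdsWithin] with s hs hs0
  have hs1 : ((s : ℂ) ^ 4) ≠ 0 := pow_ne_zero _ (by exact_mod_cast hs0)
  simp only [Function.comp]
  rw [hs, map_smul, smul_eq_mul, sub_div, mul_div_cancel_right₀ _ hs1, div_eq_inv_mul]
  ring

end Pool.Agent.V7H1.ThetaMap
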